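import Pool.Agent.KDT.StmtsZ

/-!
# Squad KDT, row HSP (helper35)
-/

set_option autoImplicit false

namespace Pool.Agent.KDT.Z.H35

open Polynomial H58Q Pool.Agent.SZT Pool.Agent.KDT.Z

theorem hsp (hTRS : TrsStatement) (hEMB : EmbStatement) : HspStatement := by
  intro k U _ _ _ f g hEnv J _ th cl act Jk hJK q t t' hq ht ht' hst hr ho hspc hr' ho'
  have h4 : g.coeff 4 = algebraMap k U (f.coeff 4) := by
    rw [hEnv.gm, coeff_map]
  obtain ⟨e1, e2, e3, -, -, -, -⟩ := hEMB k U f g hEnv.gm t' t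
  have on1 : On g (emb U t) := ((hEMB k U f g hEnv.gm t t).2.2.2.1).2 ht
  have on2 : On g (emb U t') := ((hEMB k U f g hEnv.gm t t').2.2.2.1).2 ht'
  have hinj : Function.Injective (algebraMap k U) := (algebraMap k U).injective
  have r1 : rr (emb U t') (emb U t) ≠ 0 := by
    rw [e1]
    exact fun h => hr' (hinj (by rw [h, map_zero]))
  have r2 : ro (emb U t') (emb U t) ≠ 0 := by
    rw [e2]
    exact fun h => ho' (hinj (by rw [h, map_zero]))
  obtain ⟨c1, c2⟩ := hJK.comp _ _ on2 on1 r1 r2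
  have c3 : cmp (g.coeff 4) (emb U t') (emb U t) = emb U (cmp (f.coeff 4) t' t) := by
    rw [h4]
    exact e3 _
  rw [c3] at c1 c2
  refine ⟨((hEMB k U f g hEnv.gm t (cmp (f.coeff 4) t' t)).2.2.2.1).1 c1, ?_, c2.symm⟩
  obtain ⟨σ, hσ⟩ := hst
  obtain ⟨d1, d2⟩ := hJK.comp _ _ hq on1 hr ho
  obtain ⟨a1, a2⟩ := hJK.act_cl σ q hq
  have hsq : (fun i => σ (q i)) = cmp (g.coeff 4) q (emb U t) := by
    apply hJK.cl_inj _ _ a1 d1
    rw [← a2, hσ, d2]
  have hT := hTRS k U (f.coeff 4) q t t' hspc hr ho hr' ho'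
  rw [← h4, ← hsq] at hT
  intro G hG
  apply hT
  have h := MvPolynomial.comp_aeval_apply (f := q) (σ : U →ₐ[k] U) G
  rw [hG, map_zero] at h
  exact h.symm

end Pool.Agent.KDT.Z.H35
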