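import Pool.Agent.KDT.StmtsJ

/-!
# Squad KDT, row JKE (helper35)
-/

set_option autoImplicit false

namespace Pool.Agent.KDT.Z.H35

open Polynomial H58Q Pool.Agent.SZT Pool.Agent.KDT.Z

theorem pA_map {F E : Type} [Field F] [Field E] (φ : F →+* E) (q : Fin 4 → F) :
    (pA q).map φ = pA (fun i => φ (q i)) := by
  unfold pA
  simp

theorem pB_map {F E : Type} [Field F] [Field E] (φ : F →+* E) (q : Fin 4 → F) :
    (pB q).map φ = pB (fun i => φ (q i)) := by
  unfold pB
  simp

theorem jke (hJGA : JgaStatement) (hJGB : JgbStatement) (hJGC : JgcStatement)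
    (hFUN : FunStatement) (hEMB : EmbStatement) (hDED : UBT.DedStmt) : JkeStatement := by
  intro k U _ _ _ f g hEnv _ _
  haveI := hEnv.ch
  haveI : CharZero U := charZero_of_injective_algebraMap (algebraMap k U).injective
  have hgm := hEnv.gm
  have mo : g.Monic := by
    rw [hgm]
    exact hEnv.mo.map _
  have d5 : g.natDegree = 5 := by
    rw [hgm, natDegree_map]
    exact hEnv.d5
  have sf : Squarefree g := by
    have h1 : f.Separable := PerfectField.separable_iff_squarefree.2 hEnv.sf
    rw [hgm]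
    exact (h1.map (f := algebraMap k U)).squarefree
  haveI : Fact (Odd g.natDegree) := ⟨by rw [d5]; decide⟩
  haveI : IsDedekindDomain (Q U g) := hDED U g two_ne_zero sf
  obtain ⟨a1, a2, a3, a4⟩ := hJGA U g mo d5 sf
  obtain ⟨b1, b2, b3, b4, b5⟩ := hJGB U g mo d5 sf
  obtain ⟨c1, c2, c3⟩ := hJGC U g mo d5 sf
  have hgσ : ∀ σ : U ≃ₐ[k] U, g = g.map (σ : U →+* U) := by
    intro σ
    rw [hgm, Polynomial.map_map]
    congr 1
    ext x
    simp
  have hact : ∀ σ : U ≃ₐ[k] U, ∃ m : Additive (ClassGroup (Q U g)) →+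
      Additive (ClassGroup (Q U g)), ∀ A B : U[X], m (clI g (MI g A B)) =
        clI g (MI g (A.map (σ : U →+* U)) (B.map (σ : U →+* U))) := by
    intro σ
    obtain ⟨m, -, hm⟩ := hFUN U U (σ : U →+* U) g g (hgσ σ) mo d5 sf
    exact ⟨m, hm⟩
  choose act hact using hact
  obtain ⟨ι, hι, hιm⟩ := hFUN k U (algebraMap k U) f g hgm hEnv.mo hEnv.d5 hEnv.sf
  have hιc : ∀ t : Fin 4 → k, ι (clC f t) = clC g (emb U t) := by
    intro t
    unfold clC
    rw [hιm, pA_map, pB_map]
    rfl
  have hιt : ∀ (z0 : Pt f) (z : Pt g), z.a = algebraMap k U z0.a → z.b = algebraMap k U z0.b →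
      ι (thC f z0) = thC g z := by
    intro z0 z h1 h2
    unfold thC
    rw [hιm, h1, h2]
    simp
  have hemb : ∀ t : Fin 4 → k, On g (emb U t) ↔ On f t := fun t =>
    (hEMB k U f g hgm t t).2.2.2.1
  have hath : ∀ (σ : U ≃ₐ[k] U) (z w : Pt g), w.a = σ z.a → w.b = σ z.b →
      act σ (thC g z) = thC g w := by
    intro σ z w h1 h2
    unfold thC
    rw [hact, h1, h2]
    simp
  have hacl : ∀ (σ : U ≃ₐ[k] U) (q : Fin 4 → U), On g q →
      On g (fun i => σ (q i)) ∧ act σ (clC g q) = clC g (fun i => σ (q i)) := by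
    intro σ q hq
    constructor
    · unfold On at hq ⊢
      have h := Polynomial.map_dvd (σ : U →+* U) hq
      rw [Polynomial.map_sub, Polynomial.map_pow, pA_map, pB_map, ← hgσ σ] at h
      exact h
    · unfold clC
      rw [hact, pA_map, pB_map]
      rfl
  have hmem : ∀ c, c ∈ ι.range ↔ c = 0 ∨
      (∃ z : Pt g, (∃ a b : k, z.a = algebraMap k U a ∧ z.b = algebraMap k U b) ∧
        c = thC g z) ∨
      ∃ t : Fin 4 → k, On f t ∧ On g (emb U t) ∧ c = clC g (emb U t) := by
    intro c
    constructor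
    · rintro ⟨c0, rfl⟩
      rcases (hJGB k f hEnv.mo hEnv.d5 hEnv.sf).2.2.2.2 c0 with rfl | ⟨z0, rfl⟩ | ⟨t, ht, rfl⟩
      · left
        exact map_zero _
      · right
        left
        have hon : (algebraMap k U z0.b) ^ 2 = g.eval (algebraMap k U z0.a) := by
          rw [hgm, eval_map_algebraMap, aeval_algebraMap_apply, ← map_pow, z0.on]
          simp
        exact ⟨⟨_, _, hon⟩, ⟨z0.a, z0.b, rfl, rfl⟩, hιt z0 ⟨_, _, hon⟩ rfl rfl⟩
      · right
        right
        exact ⟨t, ht, (hemb t).2 ht, hιc t⟩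
    · rintro (rfl | ⟨z, ⟨a, b, ha, hb⟩, rfl⟩ | ⟨t, ht, -, rfl⟩)
      · exact zero_mem _
      · have hon : b ^ 2 = f.eval a := by
          apply (algebraMap k U).injective
          have h := z.on
          rw [ha, hb, hgm, eval_map_algebraMap, aeval_algebraMap_apply] at h
          rw [map_pow, h]
          simp
        exact ⟨thC f ⟨a, b, hon⟩, hιt _ _ ha hb⟩
      · exact ⟨clC f t, hιc t⟩
  refine ⟨Additive (ClassGroup (Q U g)), inferInstance, thC g, clC g, act, ι.range, ι, ?_, hι,
    rfl, fun t _ => hιc t⟩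
  exact
    { th_neg := a1
      th_ne := a2
      th_inj := a3
      th_pair := a4
      cl_inj := b1
      cl_ngv := b2
      cl_ne := b3
      cl_th := b4
      cover := b5
      split := c1
      comp := c2
      exc := c3
      act_th := hath
      act_cl := hacl
      act_k := by
        intro σ c hc
        rcases (hmem c).1 hc with rfl | ⟨z, ⟨a, b, ha, hb⟩, rfl⟩ | ⟨t, ht, ht', rfl⟩
        · exact map_zero _
        · exact hath σ z z (by rw [ha]; simp) (by rw [hb]; simp)
        · rw [(hacl σ _ ht').2]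
          congr 1
          funext i
          unfold emb
          simp
      mem_k := hmem }

end Pool.Agent.KDT.Z.H35
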